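import Mathlib
import Pool.Agent.Y16.Gluon.Def

/-!
# Lattice Yang-Mills theory: the next to leading order

Wilson's lattice gauge theory in dimension `d ≥ 3` with gauge group an arbitrary closed subgroup `G`
of `U(N)` at the inverse coupling `β`, on the periodic lattices `(ℤ/l)^d` with `l ≥ β` even and in all
their infinite volume limits. The observables are all gauge invariant polynomials in the parallel
transported covariant derivatives `U D^J F_p(x) U*` of the lattice field strength, `U` being the
product of the link variables along any path which ends at `x`. The lattice, its action, the field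
strength, the covariant derivatives and the lattice Maxwell field are those of the file
`Pool/Agent/Y16/Gluon/Def.lean`.
-/

open MeasureTheory Matrix Filter
open scoped Matrix.Norms.Frobenius Topology
open Pool.Agent.Y16.Gluon

namespace Pool.Agent.Y16.NextOrder

set_option linter.unusedSectionVars false

noncomputable section

section paths

variable {d : ℕ}

/-- The end point of the path which starts at `y` and takes the given steps; a step is a coordinate
direction and an orientation. -/
def pathEnd : List (Fin d × Bool) → (Fin d → ℤ) → Fin d → ℤ
  | [], y => y
  | (i, true) :: Γ, y => pathEnd Γ (y + Pi.single i 1)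
  | (i, false) :: Γ, y => pathEnd Γ (y - Pi.single i 1)

/-- The parallel transport along the path which starts at `y` and takes the given steps, the product
of its link variables. -/
def transport {N : ℕ} {G : Subgroup (UU N)} (V : LinkZ d → G) :
    List (Fin d × Bool) → (Fin d → ℤ) → G
  | [], _ => 1
  | (i, true) :: Γ, y => V (y, i) * transport V Γ (y + Pi.single i 1)
  | (i, false) :: Γ, y => (V (y - Pi.single i 1, i))⁻¹ * transport V Γ (y - Pi.single i 1)

/-- Iterated forward differences in the directions of the list. -/
def fdiff : List (Fin d) → ((Fin d → ℤ) → ℝ) → (Fin d → ℤ) → ℝ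
  | [], g => g
  | i :: J, g => fun z => fdiff J g (z + Pi.single i 1) - fdiff J g z

/-- The covariance `⟨∂^J F_p(x) ∂^{J'} F_{p'}(y)⟩`, `z = x - y`, of the lattice Maxwell field. -/
def latCov (J : List (Fin d)) (p : Fin d × Fin d) (J' : List (Fin d)) (p' : Fin d × Fin d)
    (z : Fin d → ℤ) : ℝ := fdiff J (bdiff J' (latMaxwell p p')) z

/-- The sum over all pairings of the elements of the list of the products of the entries `A`. -/
def pairings {ι : Type*} (A : ι → ι → ℝ) : List ι → ℝ
  | [] => 1
  | a :: l => ∑ i : Fin l.length, A a (l.get i) * pairings A (l.eraseIdx i)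
termination_by l => l.length
decreasing_by
  simp only [List.length_cons]
  have := List.length_eraseIdx_of_lt i.isLt
  omega

end paths

/-- A gauge invariant observable of degree `m`,
`T(U_1 D^{J_1} F_{p_1}(x_1) U_1*, ..., U_m D^{J_m} F_{p_m}(x_m) U_m*)`: for every factor `i` a base
point `y_i`, a path from `y_i` to a point `x_i`, the directions `J_i` of the covariant derivatives and
a plane `p_i`, `U_i` being the parallel transport along the path, and a multilinear form `T` on the
matrices which is invariant under the gauge transformations at the base points. For example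
`T(A_1, ..., A_m) = Re tr A_1 ... A_m` if all base points coincide, products of such forms for
different base points, and in general all polynomials in invariants of the group `G`. -/
structure Observable {N : ℕ} (G : Subgroup (UU N)) (d m : ℕ) where
  base : Fin m → Fin d → ℤ
  path : Fin m → List (Fin d × Bool)
  J : Fin m → List (Fin d)
  p : Fin m → Fin d × Fin d
  plane : ∀ i, (p i).1 ≠ (p i).2
  T : MultilinearMap ℝ (fun _ : Fin m => Mt N) ℝ
  inv : ∀ (γ : (Fin d → ℤ) → G) (A : Fin m → Mt N),
    T (fun i => mt (γ (base i)) * A i * (mt (γ (base i)))ᴴ) = T A

section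

variable {N n d m : ℕ} {G : Subgroup (UU N)}

/-- `φ β ⟨f β⟩` converges to `a` as `β → ∞`, uniformly in the theories on all tori of even side
`l ≥ β` and in all infinite volume limits. -/
def Converges [MeasurableSpace G] (μ : Measure G) (f : ℝ → (LinkZ d → G) → ℝ) (φ : ℝ → ℝ → ℝ)
    (a : ℝ) : Prop :=
  ∀ ε : ℝ, 0 < ε → ∃ β₀ : ℝ, ∀ β : ℝ, β₀ ≤ β →
    (∀ (l : ℕ) [NeZero l], Even l → β ≤ l → |φ β (expect l μ β (f β)) - a| ≤ ε) ∧
    ∀ ν : Measure (LinkZ d → G), IsInfVol μ β ν → |φ β (∫ V, f β V ∂ν) - a| ≤ ε

/-- The point `x_i`. -/
def Observable.point (O : Observable G d m) (i : Fin m) : Fin d → ℤ :=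
  pathEnd (O.path i) (O.base i)

/-- The factor `U_i D^{J_i} F_{p_i}(x_i) U_i*`. -/
def Observable.factor (O : Observable G d m) (B : LieBasis G n) (β : ℝ) (V : LinkZ d → G)
    (i : Fin m) : Mt N :=
  mt (transport V (O.path i) (O.base i)) *
    covs V (O.J i) (strength B β V (O.p i)) (O.point i) *
    (mt (transport V (O.path i) (O.base i)))ᴴ

/-- The observable as a function of the link variables. -/
def Observable.value (O : Observable G d m) (B : LieBasis G n) (β : ℝ) (V : LinkZ d → G) : ℝ :=
  O.T (O.factor B β V)

/-- The expectation of the observable when the components of the field strength are independent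
lattice Maxwell fields and all link variables in the covariant derivatives and in the parallel
transports are `1`: the sum over the colours of the factors and over the pairings. -/
def Observable.gaussian (O : Observable G d m) (B : LieBasis G n) : ℝ :=
  ∑ c : Fin m → Fin n, O.T (fun i => B.X (c i)) * pairings (fun u v => if c u = c v then
    latCov (O.J u) (O.p u) (O.J v) (O.p v) (O.point u - O.point v) else 0) (List.finRange m)

end

end

end Pool.Agent.Y16.NextOrder
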