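import Mathlib
import Pool.Agent.Y16.Gluon.Proof
import Pool.Agent.Y16.NL.Nx
import Pool.Agent.Y16.NL.Tan4
import Pool.Agent.Y16.NextOrder.Def

/-!
# The next to leading order: proof
-/

open MeasureTheory Matrix Filter
open scoped Matrix.Norms.Frobenius Topology
open Pool.Agent.Y16.Gluon

namespace Pool.Agent.Y16.NextOrder

set_option linter.unusedSectionVars false
set_option maxHeartbeats 400000

noncomputable section

open Pool.Agent Pool.Agent.H906R3 Pool.Agent.W793

variable {N n d m : ℕ} {G : Subgroup (UU N)}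

section kernels

lemma pairings_eq {ι : Type*} (A : ι → ι → ℝ) (m : ℕ) : ∀ L : List ι, L.length ≤ m →
    pairings A L = SCH.haf A L := by
  induction m with
  | zero =>
    intro L hL
    have : L = [] := List.length_eq_zero_iff.1 (by omega)
    subst this
    simp only [pairings, SCH.haf]
  | succ m ih =>
    intro L hL
    cases L with
    | nil => simp only [pairings, SCH.haf]
    | cons a L =>
      simp only [pairings, SCH.haf]
      refine Finset.sum_congr rfl fun i _ => ?_
      rw [ih]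
      have h1 := List.length_eraseIdx_of_lt i.isLt
      simp only [List.length_cons] at hL
      omega

lemma fdiff_eq (J : List (Fin d)) (g : (Fin d → ℤ) → ℝ) : fdiff J g = TH940.YM.dF J g := by
  induction J with
  | nil => rfl
  | cons i J ih =>
    funext z
    show fdiff J g (z + Pi.single i 1) - fdiff J g z = _
    rw [ih]; rfl

lemma latCov_eq (J : List (Fin d)) (p : Fin d × Fin d) (J' : List (Fin d)) (p' : Fin d × Fin d)
    (z : Fin d → ℤ) : latCov J p J' p' z = TH940.YM.mcD (SCH.green d) J p J' p' z := by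
  unfold latCov TH940.YM.mcD
  rw [fdiff_eq, bdiff_eq]
  have h1 : latMaxwell p p' = fun z =>
      SCH.mx (fun a b => SCH.DD a b (SCH.green d) z) p.1 p.2 p'.1 p'.2 := by
    funext z
    exact lat_eq p p' z
  rw [h1]

lemma pathEnd_eq (Γ : List (Fin d × Bool)) : ∀ y, pathEnd Γ y = Y16.YM.pend Γ y := by
  induction Γ with
  | nil => intro y; rfl
  | cons s Γ ih =>
    intro y
    rcases s with ⟨i, _ | _⟩
    · exact ih _
    · exact ih _

end kernels

section coordinates

variable [CompactSpace G] [SecondCountableTopology G] [MeasurableSpace G] [BorelSpace G]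
  (B : LieBasis G n)

lemma transport_eq (V : LinkZ d → G) (Γ : List (Fin d × Bool)) : ∀ y,
    transport V Γ y = Y16.YM.pth (cf V) Γ y := by
  induction Γ with
  | nil => intro y; rfl
  | cons s Γ ih =>
    intro y
    rcases s with ⟨i, _ | _⟩
    · show (V (y - Pi.single i 1, i))⁻¹ * transport V Γ (y - Pi.single i 1) = _
      rw [ih]; rfl
    · show V (y, i) * transport V Γ (y + Pi.single i 1) = _
      rw [ih]; rfl

/-- the same data in the form used by the helper files -/
def pd (O : Observable G d m) : Y16.YM.Pd d m where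
  y := O.base
  Γ := O.path
  J := O.J
  p := O.p

/-- the components of the multilinear form -/
def tt (O : Observable G d m) (c : Fin m → Fin n) : ℝ := O.T fun i => B.X (c i)

lemma T_expand (O : Observable G d m) (A : Fin m → Fin n → ℝ) :
    O.T (fun i => ∑ a, A i a • B.X a) = Y16.YM.tn (tt B O) A := by
  rw [MultilinearMap.map_sum]
  unfold Y16.YM.tn tt
  refine Finset.sum_congr rfl fun c _ => ?_
  rw [MultilinearMap.map_smul_univ, smul_eq_mul]
  ring

lemma tt_inv (O : Observable G d m) : Y16.YM.GI (ld B) (pd O) (tt B O) := by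
  intro γ A
  rw [← T_expand, ← T_expand]
  refine Eq.trans ?_ (O.inv γ _)
  congr 1
  funext i
  exact Y16.YM.sum_rot (L := ld B) (γ (O.base i)) (A i)

lemma factor_eq (O : Observable G d m) (β : ℝ) (V : LinkZ d → G) (i : Fin m) :
    O.factor B β V i = ∑ a, (Real.sqrt β *
      Y16.YM.cx (ld B) (cf V) (O.p i) (O.J i) (O.path i) (O.base i) a) • B.X a := by
  unfold Observable.factor Observable.point
  rw [covs_eq, pathEnd_eq, transport_eq]
  have h1 := Y16.YM.sum_rot (L := ld B) (Y16.YM.pth (cf V) (O.path i) (O.base i))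
    (fun a => Real.sqrt β * Y16.YM.cv (ld B) (cf V) (O.p i) (O.J i)
      (Y16.YM.pend (O.path i) (O.base i)) a)
  refine h1.symm.trans (Finset.sum_congr rfl fun a _ => ?_)
  show _ • B.X a = _
  congr 1
  unfold Y16.YM.cx Y16.YM.rot
  rw [Finset.mul_sum]
  exact Finset.sum_congr rfl fun b _ => by ring

lemma value_eq (O : Observable G d m) (β : ℝ) (V : LinkZ d → G) :
    O.value B β V = Real.sqrt β ^ m * Y16.YM.go (ld B) (pd O) (tt B O) (cf V) := by
  unfold Observable.value
  have h1 : O.factor B β V = fun i => ∑ a, (Real.sqrt β *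
      Y16.YM.cx (ld B) (cf V) (O.p i) (O.J i) (O.path i) (O.base i) a) • B.X a :=
    funext fun i => factor_eq B O β V i
  rw [h1, T_expand B O (fun i a => Real.sqrt β *
      Y16.YM.cx (ld B) (cf V) (O.p i) (O.J i) (O.path i) (O.base i) a)]
  unfold Y16.YM.go Y16.YM.tn
  rw [Finset.mul_sum]
  refine Finset.sum_congr rfl fun c _ => ?_
  rw [Finset.prod_mul_distrib, Finset.prod_const, Finset.card_univ, Fintype.card_fin]
  show _ = Real.sqrt β ^ m * (tt B O c * ∏ i, Y16.YM.cx (ld B) (cf V) (O.p i) (O.J i) (O.path i)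
    (O.base i) (c i))
  ring

lemma gauge_inv (O : Observable G d m) (β : ℝ) (γ : (Fin d → ℤ) → G) (V : LinkZ d → G) :
    O.value B β (gauge γ V) = O.value B β V := by
  rw [value_eq, value_eq]
  have h : cf (gauge γ V) = fun x i => γ x * cf V x i * (γ (x + Y16.YM.ez i))⁻¹ := rfl
  rw [h, Y16.YM.go_gauge (tt_inv B O) γ (cf V)]

lemma value_cont (O : Observable G d m) (β : ℝ) : Continuous (O.value B β) := by
  have h1 : O.value B β = fun V : LinkZ d → G => Real.sqrt β ^ m *
      Y16.YM.go (ld B) (pd O) (tt B O) (cf V) := funext fun V => value_eq B O β V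
  rw [h1]
  refine continuous_const.mul ?_
  have h : Continuous fun V : LinkZ d → G => cf V :=
    continuous_pi fun x => continuous_pi fun i => continuous_apply (x, i)
  have h2 : ∀ i a, Continuous fun u : Y16.YM.Zp d → Fin d → G =>
      Y16.YM.cx (ld B) u (O.p i) (O.J i) (O.path i) (O.base i) a := fun i a =>
    Y16.YM.cx_cont (w := fun u => u)
      (fun x i => (continuous_apply i).comp (continuous_apply x)) _ _ _ _ _
  exact Y16.YM.tn_cont (tt B O) fun i a => (h2 i a).comp h

lemma gaussian_eq (O : Observable G d m) : O.gaussian B = ∑ c, tt B O c *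
    SCH.haf (TH940.YM.AC (SCH.green d) (pd O).J (pd O).p
      (fun i => Y16.YM.pend ((pd O).Γ i) ((pd O).y i)) c) (List.finRange m) := by
  unfold Observable.gaussian Observable.point
  refine Finset.sum_congr rfl fun c _ => ?_
  rw [pairings_eq _ _ _ le_rfl]
  unfold TH940.YM.AC
  simp only [latCov_eq, pathEnd_eq]
  rfl

end coordinates

/-- from limits along the directed set of `(β^{1/4}, l)` to uniform statements -/
lemma unif [CompactSpace G] [SecondCountableTopology G] [MeasurableSpace G] [BorelSpace G]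
    (μ : Measure G) [IsProbabilityMeasure μ] [μ.IsHaarMeasure]
    {f : ℝ → (LinkZ d → G) → ℝ} (hf : ∀ β, Continuous (f β)) {φ : ℝ → ℝ → ℝ}
    (hφ : ∀ β, Continuous (φ β)) {a : ℝ}
    (h : Tendsto (fun z : ℝ × ℕ => φ (z.1 ^ 4) (expect (2 * (z.2 + 1)) μ (z.1 ^ 4)
      (f (z.1 ^ 4)))) Y16.YM.FB (𝓝 a)) :
    Converges μ f φ a := by
  intro ε hε
  have h1 := (Metric.tendsto_nhds.1 h) ε hε
  rw [Y16.YM.FB_ev] at h1
  obtain ⟨b₀, h1⟩ := h1
  refine ⟨max (b₀ ^ 4) 1, fun β hβ => ?_⟩
  have hβ1 : 1 ≤ β := (le_max_right _ _).trans hβ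
  have hβ0 : 0 ≤ β := by linarith
  obtain ⟨b, hb⟩ : ∃ b : ℝ, b = Real.sqrt (Real.sqrt β) := ⟨_, rfl⟩
  have hb0 : 0 ≤ b := by rw [hb]; exact Real.sqrt_nonneg _
  have hb2 : b ^ 2 = Real.sqrt β := by rw [hb]; exact Real.sq_sqrt (Real.sqrt_nonneg _)
  have hb4 : b ^ 4 = β := by
    calc b ^ 4 = (b ^ 2) ^ 2 := by ring
      _ = β := by rw [hb2]; exact Real.sq_sqrt hβ0
  have hbb : b₀ ≤ b := by
    rcases le_or_gt b₀ 0 with h | h
    · linarith
    · have h2 : b₀ ^ 4 ≤ b ^ 4 := by rw [hb4]; exact (le_max_left _ _).trans hβ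
      exact (pow_le_pow_iff_left₀ h.le hb0 (by norm_num)).1 h2
  have hfin : ∀ k : ℕ, β ≤ 2 * ((k : ℝ) + 1) →
      |φ β (expect (2 * (k + 1)) μ β (f β)) - a| ≤ ε := by
    intro k hk
    have h2 := h1 b hbb k (by rw [hb4]; exact hk)
    rw [Real.dist_eq] at h2
    simp only [hb4] at h2
    exact h2.le
  have hfin' : ∀ (l : ℕ) [NeZero l], Even l → β ≤ l →
      |φ β (expect l μ β (f β)) - a| ≤ ε := by
    intro l hl0 hl hβl
    obtain ⟨m, rfl⟩ := even_iff_two_dvd.1 hl
    obtain ⟨k, rfl⟩ : ∃ k, m = k + 1 := by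
      cases m with
      | zero => exact absurd rfl (NeZero.ne (2 * 0))
      | succ k => exact ⟨k, rfl⟩
    have h2 := hfin k (by push_cast at hβl; exact hβl)
    convert h2
  refine ⟨hfin', fun ν hν => ?_⟩
  obtain ⟨sq, hsq, hl⟩ := hν.lim
  have hc := ((hφ β).tendsto _).comp (hl (f β) (hf β))
  refine le_of_tendsto ((hc.sub_const a).abs) ?_
  obtain ⟨M, hM⟩ := exists_nat_ge β
  filter_upwards [hsq.eventually_ge_atTop M] with j hj
  refine hfin (sq j) (hM.trans ?_)
  have : (M : ℝ) ≤ sq j := by exact_mod_cast hj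
  have h0 : (0:ℝ) ≤ sq j := Nat.cast_nonneg _
  linarith

/-- the expectation in the form used by the helper files -/
lemma expect_value [CompactSpace G] [SecondCountableTopology G] [MeasurableSpace G] [BorelSpace G]
    (μ : Measure G) [IsProbabilityMeasure μ] [μ.IsHaarMeasure] [μ.IsMulRightInvariant]
    [μ.IsInvInvariant] (B : LieBasis G n)
    (O : Observable G d m) (z : ℝ × ℕ) :
    expect (2 * (z.2 + 1)) μ (z.1 ^ 4) (O.value B (z.1 ^ 4)) =
      z.1 ^ (2 * m) * Y16.YM.ee μ (ld B) z (Y16.YM.go (ld B) (pd O) (tt B O)) := by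
  rw [expect_eq μ B]
  unfold Y16.YM.ee
  have h4 : (fun U : YM.Ed d (2 * (z.2 + 1)) → G => O.value B (z.1 ^ 4) (YM.lf U)) =
      fun U => z.1 ^ (2 * m) * Y16.YM.go (ld B) (pd O) (tt B O) (Y16.YM.uz U) := by
    funext U
    rw [value_eq B]
    have e : Real.sqrt (z.1 ^ 4) = z.1 ^ 2 := by
      rw [show z.1 ^ 4 = (z.1 ^ 2) ^ 2 by ring]
      exact Real.sqrt_sq (by positivity)
    rw [e, ← pow_mul]
    rfl
  rw [h4, YM.EX_smul]

/-- **The next to leading order of lattice Yang-Mills theory.** -/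
theorem main {N n d : ℕ} (hd : 3 ≤ d) (G : Subgroup (UU N)) (hG : IsClosed (G : Set (UU N)))
    [MeasurableSpace G] [BorelSpace G] (μ : Measure G) [IsProbabilityMeasure μ] [μ.IsHaarMeasure]
    (B : LieBasis G n) :
    (∀ β : ℝ, ∃ ν : Measure (LinkZ d → G), IsInfVol μ β ν) ∧
    (∀ (m : ℕ) (O : Observable G d m),
      (∀ (β : ℝ) (γ : (Fin d → ℤ) → G) (V : LinkZ d → G),
        O.value B β (gauge γ V) = O.value B β V) ∧
      (Even m → (∀ i, 4 ≤ (O.J i).length) →
        ∃ a : ℝ, Converges μ (O.value B) (fun β v => β * (v - O.gaussian B)) a) ∧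
      (Odd m → (Finset.univ.filter fun i => (O.J i).length < 4).card ≤ 2 →
        ∃ a : ℝ, Converges μ (O.value B) (fun β v => Real.sqrt β * v) a)) ∧
    (∀ (J : List (Fin d)) (p q r : Fin d × Fin d), J.Pairwise (· ≤ ·) → 3 ≤ J.length →
      q.1 ≠ q.2 → r.1 ≠ r.2 → Summable (threeGluonStep J p q r) ∧
      Converges μ (fun β => cubic B β J p q r 0) (fun β v => Real.sqrt β * v)
        (structureSum B * threeGluon J p q r)) ∧
    ((∃ a b, B.X a * B.X b ≠ B.X b * B.X a) → 0 < structureSum B ∧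
      ∀ m : ℕ, ∃ (J : List (Fin d)) (p q r : Fin d × Fin d), J.Pairwise (· ≤ ·) ∧
        m ≤ J.length ∧ 3 ≤ J.length ∧ p.1 ≠ p.2 ∧ q.1 ≠ q.2 ∧ r.1 ≠ r.2 ∧
        threeGluon J p q r ≠ 0) := by
  have hgl := Pool.Agent.Y16.Gluon.main hd G hG μ B
  have : CompactSpace G := by
    have h1 : IsCompact (G : Set (UU N)) := hG.isCompact
    exact isCompact_iff_compactSpace.1 h1
  have h00 : SecondCountableTopology (UU N) := TopologicalSpace.Subtype.secondCountableTopology _
  have : SecondCountableTopology G := TopologicalSpace.Subtype.secondCountableTopology _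
  have := right_inv μ
  have := inv_inv' μ
  obtain ⟨CT, hCT, htan⟩ := Pool.Agent.Y274.YMTan.tangent G hG B.X B.orth
    (fun a t => ⟨B.ex a t, B.ex_eq a t⟩) B.full
  have hTg : Y16.YM.Tg (ld B) CT := ⟨hCT.le, htan⟩
  have hTg4 : Y16.YM.Tg4 (ld B) := by
    obtain ⟨C, hC, h4⟩ := Pool.Agent.Y16.NL.tangent4 G hG B.X B.orth
      (fun a t => ⟨B.ex a t, B.ex_eq a t⟩) B.full
    refine ⟨C, hC.le, fun g => ?_⟩
    have hP : ∀ M : Mt N, Pool.Agent.Y274.YMTan.P B.X M = Y16.YM.PL (ld B) M := fun M =>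
      Pool.Agent.Y274.YMTan.P_apply B.X M
    have h1 : Y16.YM.Yg (ld B) g = Pool.Agent.Y274.YMTan.P B.X ((ld B).rho g - 1) := by
      rw [hP]
      unfold Y16.YM.Yg Y16.YM.PL
      exact Finset.sum_congr rfl fun a _ => by rw [Y16.YM.cc_sub]
    have h5 := h4 g ((ld B).rho g - 1) (Y16.YM.Yg (ld B) g) rfl h1
    rw [hP] at h5
    exact h5
  have hW := W778.SCH.W1.t_W1 W933.SCH.t_ISS
  refine ⟨fun β => exists_infVol μ B β, fun m O => ⟨fun β γ V => gauge_inv B O β γ V,
    fun he hJ => ?_, fun ho hJ => ?_⟩, fun J p q r hs hJ hq hr => ?_, hgl.2⟩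
  · obtain ⟨a, ha⟩ := Y16.YM.go_even μ hd SCH.a_B2 SCH.a_TR hW SCH.a_HAF hTg hTg4 (tt_inv B O)
      O.plane hJ he
    refine ⟨a, ?_⟩
    refine unif μ (f := fun β => O.value B β) (fun β => value_cont B O β)
      (φ := fun β v => β * (v - O.gaussian B))
      (fun β => continuous_const.mul (continuous_id.sub continuous_const)) ?_
    refine ha.congr fun z => ?_
    rw [expect_value μ B, gaussian_eq]
  · obtain ⟨a, ha⟩ := Y16.YM.go_odd μ hd SCH.a_B2 SCH.a_TR hW SCH.a_HAF hTg hTg4 (tt_inv B O)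
      hJ ho
    refine ⟨a, ?_⟩
    refine unif μ (f := fun β => O.value B β) (fun β => value_cont B O β)
      (φ := fun β v => Real.sqrt β * v)
      (fun β => continuous_const.mul continuous_id) ?_
    refine ha.congr fun z => ?_
    rw [expect_value μ B]
    have e : Real.sqrt (z.1 ^ 4) = z.1 ^ 2 := by
      rw [show z.1 ^ 4 = (z.1 ^ 2) ^ 2 by ring]
      exact Real.sqrt_sq (by positivity)
    rw [e]
    ring
  · obtain ⟨_, h2, h3⟩ := hgl.1 J p q r hs hJ hq hr
    refine ⟨h2, fun ε hε => ?_⟩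
    obtain ⟨β₀, h4⟩ := h3 ε hε
    exact ⟨β₀, fun β hβ => ⟨fun l _ hl hβl => (h4 β hβ).1 l hl hβl, (h4 β hβ).2.1⟩⟩

end

end Pool.Agent.Y16.NextOrder
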